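import Pool.Agent.H961.T4.StmA

/-!
Project PN of helper961: Duhamel's formula for the kernel in an environment.
-/

set_option autoImplicit false

namespace Pool.Agent.H286.PN

open Finset Equiv Matrix Q292.LC Pool.Agent.H961.T2 Pool.Agent.H961.T4

variable {V : Type} [DecidableEq V]

theorem row_key (v : V → ℝ) (a b y : V) :
    v (swap a b y) - v y = -((v a - v b) * ((1 : Matrix V V ℝ) a y - (1 : Matrix V V ℝ) b y)) := by
  rw [Matrix.one_apply, Matrix.one_apply]
  by_cases ha : y = a
  · subst ha
    rw [swap_apply_left, if_pos rfl]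
    by_cases hb : b = y
    · subst hb
      rw [if_pos rfl]
      ring
    · rw [if_neg hb]
      ring
  · by_cases hb : y = b
    · subst hb
      rw [swap_apply_right, if_pos rfl, if_neg (Ne.symm ha)]
      ring
    · rw [swap_apply_of_ne_of_ne ha hb, if_neg (Ne.symm ha), if_neg (Ne.symm hb)]
      ring

variable [Fintype V]

theorem sum_pm (v : V → ℝ) (a b : V) (y : V) :
    ∑ x, v x * pm (swap a b) x y = v (swap a b y) := by
  unfold pm
  simp only [Matrix.of_apply, mul_ite, mul_one, mul_zero]
  have h : ∀ x, (swap a b x = y) ↔ (x = swap a b y) := by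
    intro x
    constructor
    · intro h
      rw [← h, swap_apply_self]
    · intro h
      rw [h, swap_apply_self]
  simp only [h, Finset.sum_ite_eq', Finset.mem_univ, if_true]

theorem sum_one (v : V → ℝ) (y : V) : ∑ x, v x * (1 : Matrix V V ℝ) x y = v y := by
  simp only [Matrix.one_apply, mul_ite, mul_one, mul_zero, Finset.sum_ite_eq', Finset.mem_univ,
    if_true]

theorem PP_step (e : ℕ → V × V) (δ : ℝ) (k : ℕ) : PP e δ (k + 1) = PP e δ k * fr δ (e k) := by
  unfold PP
  rw [TT]
  unfold Mx
  rw [if_neg]
  rintro ⟨a, ha, _⟩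
  exact absurd ha (Finset.notMem_empty a)

/-- the coefficients -/
def co (e : ℕ → V × V) (ω : ℕ → Bool) (A : Finset V) (δ : ℝ) (k : ℕ) : ℝ :=
  if tch e ω A k then (if ω k then -(1 - δ) else δ) else 0

/-- one step -/
theorem one_step (e : ℕ → V × V) (ω : ℕ → Bool) (A : Finset V) (δ : ℝ) (k : ℕ) (v : V → ℝ)
    (y : V) : ∑ x, v x * Mx e ω A δ k x y - ∑ x, v x * fr δ (e k) x y =
      co e ω A δ k * ((v (e k).1 - v (e k).2) *
        ((1 : Matrix V V ℝ) (e k).1 y - (1 : Matrix V V ℝ) (e k).2 y)) := by
  have hk := row_key v (e k).1 (e k).2 y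
  have hfr : ∑ x, v x * fr δ (e k) x y = (1 - δ) * v y + δ * v (swap (e k).1 (e k).2 y) := by
    have : ∀ x, v x * fr δ (e k) x y = (1 - δ) * (v x * (1 : Matrix V V ℝ) x y) +
        δ * (v x * pm (swap (e k).1 (e k).2) x y) := by
      intro x
      unfold fr
      rw [Matrix.add_apply, Matrix.smul_apply, Matrix.smul_apply, smul_eq_mul, smul_eq_mul]
      ring
    rw [Finset.sum_congr rfl fun x _ => this x, Finset.sum_add_distrib, ← Finset.mul_sum,
      ← Finset.mul_sum, sum_one, sum_pm]
  unfold Mx co
  by_cases ht : tch e ω A k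
  · rw [if_pos ht, if_pos ht]
    by_cases ho : ω k = true
    · rw [if_pos ho, if_pos ho, sum_pm, hfr]
      linear_combination (1 - δ) * hk
    · rw [if_neg ho, if_neg ho, sum_one, hfr]
      linear_combination (-δ) * hk
  · rw [if_neg ht, if_neg ht]
    ring

theorem duf : S_DUF := by
  intro V _ _ e ω A δ n h0 h1
  refine ⟨co e ω A δ, ?_, ?_⟩
  · intro k
    unfold co cw
    by_cases ht : tch e ω A k
    · rw [if_pos ht, if_pos ht]
      by_cases ho : ω k = true
      · rw [if_pos ho, if_pos ho, abs_neg, abs_of_nonneg (by linarith)]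
        linarith
      · rw [if_neg ho, if_neg ho, abs_of_nonneg h0]
    · rw [if_neg ht, if_neg ht, abs_zero]
  · induction n with
    | zero =>
      intro x y
      rw [Finset.sum_range_zero]
      show (1 : Matrix V V ℝ) x y - (1 : Matrix V V ℝ) x y = 0
      ring
    | succ n ih =>
      intro x y
      have e1 : TT e ω A δ (n + 1) x y = ∑ z, TT e ω A δ n x z * Mx e ω A δ n z y := by
        rw [show TT e ω A δ (n + 1) = TT e ω A δ n * Mx e ω A δ n from rfl, Matrix.mul_apply]
      have e2 : PP e δ (n + 1) x y = ∑ z, PP e δ n x z * fr δ (e n) z y := by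
        rw [PP_step, Matrix.mul_apply]
      have e3 := one_step e ω A δ n (fun z => TT e ω A δ n x z) y
      have e4 : ∑ z, (TT e ω A δ n x z - PP e δ n x z) * fr δ (e n) z y =
          ∑ k ∈ range n, co e ω A δ k *
            ((TT e ω A δ k x (e k).1 - TT e ω A δ k x (e k).2) *
              (PP (sh (k + 1) e) δ (n + 1 - (k + 1)) (e k).1 y -
                PP (sh (k + 1) e) δ (n + 1 - (k + 1)) (e k).2 y)) := by
        rw [Finset.sum_congr rfl fun z _ => by rw [ih x z]]
        simp only [Finset.sum_mul]
        rw [Finset.sum_comm]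
        refine Finset.sum_congr rfl fun k hk => ?_
        have hkn : k < n := Finset.mem_range.1 hk
        obtain ⟨m, hm⟩ : ∃ m, n = k + 1 + m := ⟨n - (k + 1), by omega⟩
        have h2 : n - (k + 1) = m := by omega
        have h3 : n + 1 - (k + 1) = m + 1 := by omega
        rw [h2, h3, PP_step]
        have h4 : sh (k + 1) e m = e n := by
          unfold sh
          rw [hm]
          congr 1
          omega
        rw [h4, Matrix.mul_apply, Matrix.mul_apply, ← Finset.sum_sub_distrib, Finset.mul_sum,
          Finset.mul_sum]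
        refine Finset.sum_congr rfl fun z _ => ?_
        ring
      rw [Finset.sum_range_succ, ← e4, e1, e2]
      have h5 : PP (sh (n + 1) e) δ (n + 1 - (n + 1)) = 1 := by
        rw [Nat.sub_self]
        rfl
      rw [h5, ← e3]
      simp only [sub_mul]
      rw [Finset.sum_sub_distrib]
      ring

end Pool.Agent.H286.PN
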